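import Mathlib
import Pool.Agent.Helper23.EAStrip4

set_option autoImplicit false
open MeasureTheory Set

namespace Pool.Agent.Results.MP_37ff18_mp.QuasiOneDim

/-- `σ` is an infinite-volume ground state of the Edwards–Anderson Hamiltonian
`H(σ) = - ∑_{xy ∈ E(G)} J_{xy} σ_x σ_y` on the graph `G`: it is a `±1` configuration and
`H(σ') - H(σ) > 0` for every `±1` configuration `σ' ≠ σ` which differs from `σ` at finitely many
vertices. -/
def IsGroundState {V : Type*} (G : SimpleGraph V) (J : G.edgeSet → ℝ) (σ : V → ℝ) : Prop :=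
  (∀ x, σ x = 1 ∨ σ x = -1) ∧
    ∀ σ' : V → ℝ, (∀ x, σ' x = 1 ∨ σ' x = -1) → {x | σ' x ≠ σ x}.Finite → σ' ≠ σ →
      0 < ∑ᶠ e : G.edgeSet, J e * (((e : Sym2 V).map σ).mul - ((e : Sym2 V).map σ').mul)

/-- **Uniqueness of the ground state pair on all quasi-one-dimensional lattices `ℤ × H`.**
`SimpleGraph.hasse ℤ` is the graph on `ℤ` in which `n` is joined to `n ± 1`, and `boxProd` is the
Cartesian product of graphs, so for `H` a box `{0, …, L}^{d-1}` (or a discrete torus) the graph is
the `d`-dimensional tube `ℤ × {0, …, L}^{d-1}`. The couplings are i.i.d. with law `μ`, an arbitrary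
law without atoms giving positive mass to `(0, ∞)`; every symmetric atomless law is of this kind. -/
theorem result {W : Type*} [Fintype W] (H : SimpleGraph W) (hH : H.Connected)
    (μ : ProbabilityMeasure ℝ) (hμ : ∀ x : ℝ, (μ : Measure ℝ) {x} = 0)
    (hpos : (μ : Measure ℝ) (Set.Ioi 0) ≠ 0) :
    ∀ᵐ J ∂(Measure.infinitePi
        fun _ : ((SimpleGraph.hasse ℤ).boxProd H).edgeSet => (μ : Measure ℝ)),
      ∃ σ : ℤ × W → ℝ,
        {τ | IsGroundState ((SimpleGraph.hasse ℤ).boxProd H) J τ} = {σ, -σ} :=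
  Pool.Agent.Helper23.EA.strip_main hH (μ : Measure ℝ) hμ hpos

end Pool.Agent.Results.MP_37ff18_mp.QuasiOneDim
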